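import Pool.Agent.Helper69.UX.StA

set_option autoImplicit false

/-!
Module HLB of project UX (MP_e12aa9_pr): lower bound for the Laplace transform.
-/

namespace Pool.Agent.Helper36.UX

open Finset Filter Pool.Agent.Helper82.CN Pool.Agent.Helper11.PV Pool.Agent.Helper69.VX
  Pool.Agent.Helper69.UX

open Classical in
theorem EE_van (p : ℝ) {ι : Type} [Fintype ι] [DecidableEq ι] (B : Finset ι) :
    EE p (fun ω : ι → Bool => if (∀ i ∈ B, ω i = false) then (1 : ℝ) else 0) =
      (1 - p) ^ B.card := by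
  have h1 : ∀ ω : ι → Bool, (∏ i, bw p (ω i)) * (if (∀ i ∈ B, ω i = false) then (1 : ℝ) else 0) =
      ∏ i, (bw p (ω i) * (if i ∈ B ∧ ω i = true then (0 : ℝ) else 1)) := by
    intro ω
    rw [Finset.prod_mul_distrib]
    congr 1
    split_ifs with h
    · symm
      apply Finset.prod_eq_one
      intro i _
      rw [if_neg]
      rintro ⟨h2, h3⟩
      rw [h i h2] at h3
      cases h3
    · push Not at h
      obtain ⟨i, hi, h2⟩ := h
      symm
      apply Finset.prod_eq_zero (mem_univ i)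
      rw [if_pos]
      exact ⟨hi, by simpa using h2⟩
  unfold EE
  rw [Finset.sum_congr rfl (fun ω _ => h1 ω)]
  have h := (Finset.prod_univ_sum (fun _ : ι => (univ : Finset Bool))
    (fun i b => bw p b * (if i ∈ B ∧ b = true then (0 : ℝ) else 1))).symm
  simp only [Fintype.piFinset_univ] at h
  rw [h]
  have h2 : ∀ i : ι, ∑ b : Bool, bw p b * (if i ∈ B ∧ b = true then (0 : ℝ) else 1) =
      if i ∈ B then 1 - p else 1 := by
    intro i
    by_cases hi : i ∈ B
    · simp [bw, hi]
    · simp [bw, hi]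
  rw [Finset.prod_congr rfl (fun i _ => h2 i), Finset.prod_ite_mem, Finset.univ_inter,
    Finset.prod_const]

theorem hHLB (hHAR : StHAR) : StHLB := by
  classical
  intro p s ι σ _ _ _ 𝒮 B Z hp0 hp1 hs
  set c : ℝ := 1 - Real.exp (-s) with hc
  have he1 : Real.exp (-s) ≤ 1 := by
    rw [Real.exp_le_one_iff]
    linarith
  have he0 : 0 < Real.exp (-s) := Real.exp_pos _
  let I : Finset ι → (ι → Bool) → ℝ := fun D ω => if (∀ i ∈ D, ω i = false) then (1 : ℝ) else 0
  let g : σ → (ι → Bool) → ℝ := fun S ω => 1 - c * I (B S \ Z) ω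
  have hI01 : ∀ D ω, I D ω = 0 ∨ I D ω = 1 := by
    intro D ω
    show (if _ then (1 : ℝ) else 0) = 0 ∨ _
    by_cases h : ∀ i ∈ D, ω i = false
    · right
      exact if_pos h
    · left
      exact if_neg h
  have hg0 : ∀ S ω, 0 ≤ g S ω := by
    intro S ω
    show 0 ≤ 1 - c * I (B S \ Z) ω
    rcases hI01 (B S \ Z) ω with h | h <;> rw [h] <;> rw [hc] <;> linarith
  have hanti : ∀ (D : Finset ι) (ω ω' : ι → Bool), ω ≤ ω' → I D ω' ≤ I D ω := by
    intro D ω ω' hle
    by_cases h : ∀ i ∈ D, ω' i = false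
    · have h2 : ∀ i ∈ D, ω i = false := by
        intro i hi
        have h3 := hle i
        rw [h i hi] at h3
        exact le_bot_iff.1 h3
      have h4 : I D ω = 1 := if_pos h2
      have h5 : I D ω' = 1 := if_pos h
      rw [h4, h5]
    · have h5 : I D ω' = 0 := if_neg h
      rw [h5]
      rcases hI01 D ω with h6 | h6 <;> rw [h6]
      norm_num
  have hc0 : 0 ≤ c := by rw [hc]; linarith
  have hgm : ∀ S, Monotone (g S) := by
    intro S ω ω' hle
    show 1 - c * I (B S \ Z) ω ≤ 1 - c * I (B S \ Z) ω'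
    have := mul_le_mul_of_nonneg_left (hanti (B S \ Z) ω ω' hle) hc0
    linarith
  have hEg : ∀ S, EE p (g S) = 1 - c * (1 - p) ^ (B S \ Z).card := by
    intro S
    show EE p (fun ω => 1 - c * I (B S \ Z) ω) = _
    rw [EE_sub, EE_const, EE_mul_left]
    congr 2
    exact EE_van p (B S \ Z)
  have hprod : ∀ T : Finset σ, ∏ S ∈ T, EE p (g S) ≤ EE p (fun ω => ∏ S ∈ T, g S ω) := by
    intro T
    induction T using Finset.induction_on with
    | empty => simp [EE_const]
    | insert a T ha ih =>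
      rw [Finset.prod_insert ha]
      have h1 : EE p (fun ω => ∏ S ∈ insert a T, g S ω) =
          EE p (fun ω => g a ω * ∏ S ∈ T, g S ω) := by
        congr 1
        funext ω
        rw [Finset.prod_insert ha]
      rw [h1]
      have h2 : Monotone (fun ω => ∏ S ∈ T, g S ω) := by
        intro ω ω' hle
        exact Finset.prod_le_prod (fun S _ => hg0 S ω) (fun S _ => hgm S hle)
      refine le_trans ?_ (hHAR p ι (g a) (fun ω => ∏ S ∈ T, g S ω) hp0 hp1 (Or.inl ⟨hgm a, h2⟩))
      exact mul_le_mul_of_nonneg_left ih (EE_nonneg hp0 hp1 (hg0 a))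
  have hpt : ∀ ω : ι → Bool, I Z ω *
      Real.exp (-s * ∑ S ∈ 𝒮, I (B S) ω) = I Z ω * ∏ S ∈ 𝒮, g S ω := by
    intro ω
    by_cases hZ : ∀ i ∈ Z, ω i = false
    · congr 1
      rw [Finset.mul_sum, Real.exp_sum]
      refine Finset.prod_congr rfl fun S _ => ?_
      show Real.exp (-s * I (B S) ω) = 1 - c * I (B S \ Z) ω
      by_cases h : ∀ i ∈ B S, ω i = false
      · have h1 : I (B S) ω = 1 := if_pos h
        have h2 : I (B S \ Z) ω = 1 := if_pos fun i hi => h i (Finset.mem_sdiff.1 hi).1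
        rw [h1, h2, hc, mul_one]
        ring
      · have h1 : I (B S) ω = 0 := if_neg h
        have h2 : I (B S \ Z) ω = 0 := by
          refine if_neg fun h3 => h fun i hi => ?_
          by_cases hi2 : i ∈ Z
          · exact hZ i hi2
          · exact h3 i (Finset.mem_sdiff.2 ⟨hi, hi2⟩)
        rw [h1, h2]
        simp
    · have h0 : I Z ω = 0 := if_neg hZ
      rw [h0, zero_mul, zero_mul]
  have hgoal : EE p (fun ω => I Z ω * Real.exp (-s * ∑ S ∈ 𝒮, I (B S) ω)) =
      (1 - p) ^ Z.card * EE p (fun ω => ∏ S ∈ 𝒮, g S ω) := by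
    have h1 : (fun ω => I Z ω * Real.exp (-s * ∑ S ∈ 𝒮, I (B S) ω)) =
        fun ω => I Z ω * ∏ S ∈ 𝒮, g S ω := funext hpt
    rw [h1, EE_indep p (fun i => i ∈ Z)]
    · congr 1
      exact EE_van p Z
    · intro ω ω' h
      have h2 : (∀ i ∈ Z, ω i = false) ↔ (∀ i ∈ Z, ω' i = false) :=
        forall₂_congr fun i hi => by rw [h i hi]
      show (if _ then (1 : ℝ) else 0) = if _ then (1 : ℝ) else 0
      simp only [h2]
    · intro ω ω' h
      refine Finset.prod_congr rfl fun S _ => ?_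
      show 1 - c * I (B S \ Z) ω = 1 - c * I (B S \ Z) ω'
      have h2 : (∀ i ∈ B S \ Z, ω i = false) ↔ (∀ i ∈ B S \ Z, ω' i = false) :=
        forall₂_congr fun i hi => by rw [h i (Finset.mem_sdiff.1 hi).2]
      have h3 : I (B S \ Z) ω = I (B S \ Z) ω' := by
        show (if _ then (1 : ℝ) else 0) = if _ then (1 : ℝ) else 0
        simp only [h2]
      rw [h3]
  have hfin : (1 - p) ^ Z.card * ∏ S ∈ 𝒮, (1 - c * (1 - p) ^ (B S \ Z).card) ≤
      EE p (fun ω => I Z ω * Real.exp (-s * ∑ S ∈ 𝒮, I (B S) ω)) := by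
    rw [hgoal]
    have h1 := hprod 𝒮
    rw [Finset.prod_congr rfl (fun S _ => hEg S)] at h1
    exact mul_le_mul_of_nonneg_left h1 (pow_nonneg (by linarith) _)
  exact hfin

end Pool.Agent.Helper36.UX
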