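import Pool.Agent.Helper69.UX.StB

set_option autoImplicit false

/-!
Module MA0 of project UX (MP_e12aa9_pr): product weights.
-/

namespace Pool.Agent.Helper36.UX

open Finset Filter Pool.Agent.Helper82.CN Pool.Agent.Helper11.PV Pool.Agent.Helper69.VX
  Pool.Agent.Helper69.UX

theorem hMA0 (hCNM : StCNM) : StMA0 := by
  classical
  intro V L _ _ _ _ A G hG0 hGA
  by_cases hV : 1 ≤ Fintype.card V
  · have hN : ∀ v : L → ℕ, (((univ : Finset (V → L)).filter
        (fun f => (fun i => (fib f i).card) = v)).card : ℝ) * ∏ i, ((v i).factorial : ℝ) ≤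
          ((Fintype.card V).factorial : ℝ) := by
      intro v
      have h1 := hCNM V L v (fun _ => ∅) hV (fun i j _ => Finset.disjoint_empty_left _)
      have h2 : (univ : Finset (V → L)).filter (fun f => (fun i => (fib f i).card) = v) =
          (univ : Finset (V → L)).filter
            (fun f => ∀ i, (fib f i).card = v i ∧ (∅ : Finset V) ⊆ fib f i) := by
        ext f
        simp only [Finset.mem_filter, Finset.mem_univ, true_and, Finset.empty_subset, and_true]
        exact funext_iff
      rw [h2]
      refine h1.trans (le_of_eq ?_)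
      simp
    have hf : ∀ f : V → L, ∏ i, G i (fib f i).card =
        ∑ v ∈ Fintype.piFinset (fun _ : L => range (A + 1)),
          if (fun i => (fib f i).card) = v then ∏ i, G i (v i) else 0 := by
      intro f
      by_cases h : (fun i => (fib f i).card) ∈ Fintype.piFinset (fun _ : L => range (A + 1))
      · rw [Finset.sum_ite_eq, if_pos h]
      · rw [Finset.sum_ite_eq, if_neg h]
        rw [Fintype.mem_piFinset] at h
        push Not at h
        obtain ⟨i, hi⟩ := h
        refine Finset.prod_eq_zero (mem_univ i) (hGA i _ ?_)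
        rw [Finset.mem_range] at hi
        omega
    rw [Finset.sum_congr rfl fun f _ => hf f, Finset.sum_comm]
    have hprod := Finset.prod_univ_sum (fun _ : L => range (A + 1))
      (fun i v => G i v / (v.factorial : ℝ))
    rw [hprod, Finset.mul_sum]
    refine Finset.sum_le_sum fun v _ => ?_
    rw [← Finset.sum_filter, Finset.sum_const, nsmul_eq_mul]
    have h0 : 0 ≤ ∏ i, G i (v i) / ((v i).factorial : ℝ) :=
      Finset.prod_nonneg fun i _ => div_nonneg (hG0 i _) (Nat.cast_nonneg _)
    have h1 : ∏ i, G i (v i) = (∏ i, ((v i).factorial : ℝ)) *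
        ∏ i, G i (v i) / ((v i).factorial : ℝ) := by
      rw [← Finset.prod_mul_distrib]
      refine Finset.prod_congr rfl fun i _ => ?_
      have h3 : ((v i).factorial : ℝ) ≠ 0 := Nat.cast_ne_zero.2 (Nat.factorial_ne_zero _)
      field_simp
    rw [h1, ← mul_assoc]
    exact mul_le_mul_of_nonneg_right (hN v) h0
  · have hV0 : Fintype.card V = 0 := by omega
    have hE : IsEmpty V := Fintype.card_eq_zero_iff.1 hV0
    have h1 : ∀ f : V → L, ∏ i, G i (fib f i).card = ∏ i, G i 0 := by
      intro f
      refine Finset.prod_congr rfl fun i _ => ?_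
      have h2 : fib f i = ∅ := Finset.eq_empty_of_isEmpty _
      rw [h2, Finset.card_empty]
    rw [Finset.sum_congr rfl fun f _ => h1 f, Finset.sum_const, Finset.card_univ, hV0]
    have h3 : Fintype.card (V → L) = 1 := Fintype.card_unique
    rw [h3, one_smul, Nat.factorial_zero, Nat.cast_one, one_mul]
    refine Finset.prod_le_prod (fun i _ => hG0 i 0) fun i _ => ?_
    have h4 : G i 0 = G i 0 / ((Nat.factorial 0 : ℕ) : ℝ) := by simp
    rw [h4]
    exact Finset.single_le_sum (f := fun v => G i v / (v.factorial : ℝ))
      (fun v _ => div_nonneg (hG0 i v) (Nat.cast_nonneg _)) (Finset.mem_range.2 (Nat.succ_pos A))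

end Pool.Agent.Helper36.UX
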