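import Pool.Agent.Helper69.UX.StC

set_option autoImplicit false

/-!
Module MGK of project UX (MP_e12aa9_pr): a numerical inequality.
-/

namespace Pool.Agent.Helper36.UX

open Finset Filter Pool.Agent.Helper82.CN Pool.Agent.Helper11.PV Pool.Agent.Helper69.VX
  Pool.Agent.Helper69.UX

theorem log_low (x : ℝ) (h0 : 0 ≤ x) (h1 : x < 1) :
    2 * x + 2 / 3 * x ^ 3 ≤ Real.log (1 + x) - Real.log (1 - x) := by
  have h := Real.hasSum_log_sub_log_of_abs_lt_one (x := x) (by rw [abs_of_nonneg h0]; exact h1)
  have h2 := sum_le_hasSum (Finset.range 2) (fun k _ => by positivity) h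
  refine le_trans (le_of_eq ?_) h2
  rw [Finset.sum_range_succ, Finset.sum_range_one]
  norm_num

theorem hMGK : StMGK := by
  intro H θ U a hθ hU hH ha0 ha1 ham
  have hH2 : 1 / 2 ≤ H := by linarith
  rcases hU.eq_or_lt with h0 | hUp
  · rw [← h0]
    have h1 : Real.log (1 - a) ≤ 0 := Real.log_nonpos (by linarith) (by linarith)
    have h2 : 0 ≤ H * ((1 - a) * (-Real.log (1 - a))) :=
      mul_nonneg (by linarith) (mul_nonneg (by linarith) (by linarith))
    simpa using h2
  · have hHp : 1 / 2 < H := by linarith
    have hU1 : 0 < 1 + U := by linarith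
    -- concavity
    have hcon := Real.concaveOn_negMulLog
    have hw : a * (1 + U) ≤ 1 := by
      rw [le_div_iff₀ hU1] at ham
      exact ham
    have hw0 : 0 ≤ a * (1 + U) := by positivity
    have hx : (U / (1 + U)) ∈ Set.Ici (0 : ℝ) := by
      rw [Set.mem_Ici]
      positivity
    have h3 := hcon.2 hx (Set.mem_Ici.2 zero_le_one : (1 : ℝ) ∈ Set.Ici (0 : ℝ)) hw0
      (sub_nonneg.2 hw) (by ring)
    simp only [smul_eq_mul, Real.negMulLog_one, mul_zero, add_zero, mul_one] at h3
    have h4 : a * (1 + U) * (U / (1 + U)) + (1 - a * (1 + U)) = 1 - a := by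
      field_simp
      ring
    rw [h4] at h3
    have h5 : a * (1 + U) * Real.negMulLog (U / (1 + U)) = a * U * (-Real.log (U / (1 + U))) := by
      unfold Real.negMulLog
      field_simp
    have h6 : Real.negMulLog (1 - a) = (1 - a) * (-Real.log (1 - a)) := by
      unfold Real.negMulLog
      ring
    rw [h5, h6] at h3
    -- the logarithm
    set x : ℝ := 1 / (2 * H) with hxd
    have hx0 : 0 < x := by positivity
    have hx1 : x < 1 := by
      rw [hxd, div_lt_one (by linarith)]
      linarith
    have h7 := log_low x hx0.le hx1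
    have h8 : Real.log (1 + x) - Real.log (1 - x) ≤ -Real.log (U / (1 + U)) := by
      rw [← Real.log_div (by linarith) (by linarith), ← Real.log_inv, inv_div]
      refine Real.log_le_log (div_pos (by linarith) (by linarith)) ?_
      rw [div_le_div_iff₀ (by linarith) hUp]
      have h9 : x * (2 * H) = 1 := by
        rw [hxd]
        field_simp
      nlinarith
    have h10 : 1 / H * (1 + 1 / (12 * H ^ 2)) = 2 * x + 2 / 3 * x ^ 3 := by
      rw [hxd]
      field_simp
      ring
    have h11 : 1 / H * (1 + 1 / (12 * H ^ 2)) ≤ -Real.log (U / (1 + U)) := by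
      rw [h10]
      exact h7.trans h8
    calc U * a * (1 + 1 / (12 * H ^ 2)) = H * (a * U * (1 / H * (1 + 1 / (12 * H ^ 2)))) := by
          field_simp
      _ ≤ H * (a * U * (-Real.log (U / (1 + U)))) := by
          refine mul_le_mul_of_nonneg_left (mul_le_mul_of_nonneg_left h11 ?_) (by linarith)
          positivity
      _ ≤ H * ((1 - a) * (-Real.log (1 - a))) := mul_le_mul_of_nonneg_left h3 (by linarith)

end Pool.Agent.Helper36.UX
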