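import Pool.Agent.Helper69.UX.StD

set_option autoImplicit false

/-!
Module MID of project UX (MP_e12aa9_pr): medium overlaps.
-/

namespace Pool.Agent.Helper36.UX

open Finset Filter Pool.Agent.Helper82.CN Pool.Agent.Helper11.PV Pool.Agent.Helper69.VX
  Pool.Agent.Helper69.UX

theorem FF_nonneg (p : ℝ) (n T R : ℕ) (κ : ℕ → ℝ) (c : ℕ) (hp : p < 1) (hκ : ∀ v, 0 ≤ κ v) :
    0 ≤ FF p n T R κ c := by
  unfold FF
  have h1 : 0 < 1 - p := by linarith
  refine Finset.sum_nonneg fun r _ => mul_nonneg (by positivity) ?_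
  refine Finset.sum_nonneg fun v _ => div_nonneg ?_ (Nat.cast_nonneg _)
  exact mul_nonneg (Nat.cast_nonneg _) (hκ v)

theorem mxb_le {V : Type} [DecidableEq V] (Q : Finset (Finset V)) (A : Finset V) :
    mxb Q A ≤ A.card := by
  unfold mxb
  exact Finset.sup_le fun B _ => Finset.card_le_card Finset.inter_subset_left

theorem NR_ge (R n : ℕ) (P Q : Finset (Finset (Fin n))) :
    (n : ℝ) - ((∑ C ∈ bigS R P Q, C.card : ℕ) : ℝ) ≤ (NR R P Q : ℝ) := by
  have h1 : ∑ C ∈ bigS R P Q, mxb Q C ≤ ∑ C ∈ bigS R P Q, C.card :=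
    Finset.sum_le_sum fun C _ => mxb_le Q C
  have h2 : n ≤ NR R P Q + ∑ C ∈ bigS R P Q, C.card := by
    unfold NR
    rw [Fintype.card_fin]
    omega
  have h3 : (n : ℝ) ≤ (NR R P Q : ℝ) + ((∑ C ∈ bigS R P Q, C.card : ℕ) : ℝ) := by
    exact_mod_cast h2
  linarith

theorem NR_lt (R n : ℕ) (P Q : Finset (Finset (Fin n))) : NR R P Q < n + 1 := by
  unfold NR
  rw [Fintype.card_fin]
  omega

/-- the sum over the sets with at least `m₀` elements -/
theorem big_sets {α : Type} [DecidableEq α] (P : Finset α) (S : Finset (Finset α)) (x z m₀ : ℝ)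
    (hS : ∀ I ∈ S, I ⊆ P ∧ m₀ ≤ (I.card : ℝ)) (hx : 0 ≤ x) (hz : 1 ≤ z)
    (h : (P.card : ℝ) * (x * z) ≤ m₀) :
    ∑ I ∈ S, x ^ I.card ≤ z ^ (-m₀) * Real.exp m₀ := by
  have hz0 : 0 < z := by linarith
  have h1 : ∀ I ∈ S, x ^ I.card ≤ z ^ (-m₀) * (x * z) ^ I.card := by
    intro I hI
    have h2 : z ^ m₀ ≤ z ^ I.card := by
      rw [← Real.rpow_natCast]
      exact Real.rpow_le_rpow_of_exponent_le hz (hS I hI).2
    have h3 : 0 < z ^ m₀ := Real.rpow_pos_of_pos hz0 _
    rw [Real.rpow_neg hz0.le, mul_pow]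
    have h4 : 1 ≤ (z ^ m₀)⁻¹ * z ^ I.card := by
      rw [inv_mul_eq_div, le_div_iff₀ h3, one_mul]
      exact h2
    calc x ^ I.card = x ^ I.card * 1 := (mul_one _).symm
      _ ≤ x ^ I.card * ((z ^ m₀)⁻¹ * z ^ I.card) := mul_le_mul_of_nonneg_left h4 (by positivity)
      _ = _ := by ring
  refine (Finset.sum_le_sum h1).trans ?_
  rw [← Finset.mul_sum]
  refine mul_le_mul_of_nonneg_left ?_ (Real.rpow_nonneg hz0.le _)
  have h5 : ∑ I ∈ S, (x * z) ^ I.card ≤ ∑ I ∈ P.powerset, (x * z) ^ I.card :=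
    Finset.sum_le_sum_of_subset_of_nonneg
      (fun I hI => Finset.mem_powerset.2 (hS I hI).1) fun I _ _ => by positivity
  refine h5.trans ?_
  have h6 : ∑ I ∈ P.powerset, (x * z) ^ I.card = (x * z + 1) ^ P.card := by
    have := Finset.sum_pow_mul_eq_add_pow (x * z) 1 P
    simpa using this
  rw [h6]
  have h7 : x * z + 1 ≤ Real.exp (x * z) := Real.add_one_le_exp _
  calc (x * z + 1) ^ P.card ≤ Real.exp (x * z) ^ P.card :=
        pow_le_pow_left₀ (by positivity) h7 _
    _ = Real.exp (P.card * (x * z)) := by rw [← Real.exp_nat_mul]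
    _ ≤ Real.exp m₀ := Real.exp_le_exp.2 h

theorem ev_num (ε c ε₀ : ℝ) (hε : 0 < ε) (hε' : ε ≤ 1 / 24) (hc : 0 < c) (h0 : 0 < ε₀) :
    ∃ n0 : ℕ, ∀ n : ℕ, n0 ≤ n → 16 ≤ n ∧ (n : ℝ) ^ (1 / 2 + ε) ≤ ε₀ * n / 2 ∧
      5 ≤ 3 * ε / 4 * Real.log n ∧ 5 ≤ c * Real.log n ∧ 3 + 2 * Real.log n ≤ 2 * (n : ℝ) ^ ε := by
  have hlog : Tendsto (fun n : ℕ => Real.log (n : ℝ)) atTop atTop :=
    Real.tendsto_log_atTop.comp tendsto_natCast_atTop_atTop
  have hpow : ∀ a : ℝ, 0 < a → Tendsto (fun n : ℕ => (n : ℝ) ^ a) atTop atTop := fun a ha =>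
    (tendsto_rpow_atTop ha).comp tendsto_natCast_atTop_atTop
  have h1 : ∀ᶠ n : ℕ in atTop, 16 ≤ n := eventually_ge_atTop 16
  have h2 : ∀ᶠ n : ℕ in atTop, 2 / ε₀ ≤ (n : ℝ) ^ (1 / 4 : ℝ) :=
    (hpow _ (by norm_num)).eventually_ge_atTop _
  have h3 : ∀ᶠ n : ℕ in atTop, 5 / (3 * ε / 4) ≤ Real.log (n : ℝ) := hlog.eventually_ge_atTop _
  have h4 : ∀ᶠ n : ℕ in atTop, 5 / c ≤ Real.log (n : ℝ) := hlog.eventually_ge_atTop _
  have h5 : ∀ᶠ n : ℕ in atTop, (3 : ℝ) ≤ (n : ℝ) ^ ε := (hpow _ hε).eventually_ge_atTop _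
  have h6 : ∀ᶠ n : ℕ in atTop, Real.log (n : ℝ) ≤ 1 / 2 * (n : ℝ) ^ ε := by
    have h7 := (isLittleO_log_rpow_atTop hε).bound (show (0 : ℝ) < 1 / 2 by norm_num)
    have h8 := tendsto_natCast_atTop_atTop (R := ℝ) |>.eventually h7
    filter_upwards [h8] with n hn
    have h9 : 0 ≤ (n : ℝ) ^ ε := Real.rpow_nonneg (Nat.cast_nonneg _) _
    rw [Real.norm_eq_abs, Real.norm_eq_abs, abs_of_nonneg h9] at hn
    exact (le_abs_self _).trans hn
  obtain ⟨n0, hn0⟩ := eventually_atTop.1 (h1.and (h2.and (h3.and (h4.and (h5.and h6)))))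
  refine ⟨n0, fun n hn => ?_⟩
  obtain ⟨g1, g2, g3, g4, g5, g6⟩ := hn0 n hn
  have hn1 : (1 : ℝ) ≤ n := by
    have : 1 ≤ n := by omega
    exact_mod_cast this
  have hnp : (0 : ℝ) < n := by linarith
  refine ⟨g1, ?_, ?_, ?_, ?_⟩
  · have e1 : (n : ℝ) ^ (1 / 2 + ε) * (n : ℝ) ^ (1 / 4 : ℝ) ≤ n := by
      rw [← Real.rpow_add hnp]
      calc (n : ℝ) ^ (1 / 2 + ε + 1 / 4) ≤ (n : ℝ) ^ (1 : ℝ) :=
            Real.rpow_le_rpow_of_exponent_le hn1 (by linarith)
        _ = n := Real.rpow_one _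
    have e2 : 0 < (n : ℝ) ^ (1 / 2 + ε) := Real.rpow_pos_of_pos hnp _
    have e3 : (n : ℝ) ^ (1 / 2 + ε) * (2 / ε₀) ≤ n :=
      (mul_le_mul_of_nonneg_left g2 e2.le).trans e1
    rw [mul_div_assoc', div_le_iff₀ h0] at e3
    linarith
  · rw [div_le_iff₀ (by positivity)] at g3
    linarith
  · rw [div_le_iff₀ hc] at g4
    linarith
  · linarith


theorem hMID (hOVN : StOVN) (hMD1 : StMD1) (hMD2 : StMD2) (hSIZ : StSIZ) : StMID := by
  classical
  intro p ε C ε₀ hp0 hp1 hε0 hε1 hC hε₀ hε₀'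
  obtain ⟨ε₁, he1, he1', n1, hM1⟩ := hMD1 p ε hp0 hp1 hε0 hε1
  obtain ⟨J, δ, c, hδ, hc, n2, hM2⟩ := hMD2 p ε C ε₀ ε₁ hp0 hp1 hε0 hε1 hC hε₀ hε₀' he1 he1'
  obtain ⟨n3, hO⟩ := hOVN p ε hp0 hp1 hε0 hε1
  obtain ⟨n4, hS⟩ := hSIZ p ε ε 0 hp0 hp1 hε0 hε1 hε0
  obtain ⟨n5, hN⟩ := ev_num ε c ε₀ hε0 hε1 hc hε₀
  refine ⟨J, δ, hδ, n1 + n2 + n3 + n4 + n5, ?_⟩
  intro C₀ s m₀ n T th κ₀ κ lam mu P hn hW hPar hGood hs0 hs hWt hm₀
  obtain ⟨k1, k2, k3, k4, k5⟩ := hN n (by omega)
  have hSz := hS n T th (by omega) hW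
  have hn1 : (1 : ℝ) ≤ n := by
    have : 1 ≤ n := by omega
    exact_mod_cast this
  have hnp : (0 : ℝ) < n := by linarith
  have hlog0 : 0 ≤ Real.log n := Real.log_nonneg hn1
  have hp1' : p < 1 := by
    have : 0 < 1 / Real.exp 2 := by positivity
    linarith
  have h1p : 0 < 1 - p := by linarith
  set b : ℝ := 1 / (1 - p) with hb
  have hb1 : 1 ≤ b := by
    rw [hb, le_div_iff₀ h1p]
    linarith
  have hbb : Real.exp (bb p) = b := by
    unfold bb
    rw [Real.exp_log (by positivity)]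
  have hbb0 : 0 ≤ bb p := by
    unfold bb
    exact Real.log_nonneg hb1
  obtain ⟨w1, w2, w3⟩ := hW
  have hW : Win p ε n T th := ⟨w1, w2, w3⟩
  set R := RR ε T with hR
  -- the sets of classes
  let S1 : Finset (Finset (Finset (Fin n))) :=
    P.powerset.filter (fun I => m₀ ≤ (I.card : ℝ) ∧ (I.card : ℝ) ≤ (1 - ε₀) * P.card)
  have hS1 : ∀ I ∈ S1, I ⊆ P ∧ m₀ ≤ (I.card : ℝ) ∧ (I.card : ℝ) ≤ (1 - ε₀) * P.card := by
    intro I hI
    obtain ⟨h1, h2⟩ := Finset.mem_filter.1 hI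
    exact ⟨Finset.mem_powerset.1 h1, h2⟩
  let F : Finset (Finset (Fin n)) → ℝ := fun Q => pw (gf κ) Q * b ^ ovl P Q
  have hgf : ∀ v, 0 ≤ gf κ v := fun v => mul_nonneg (Nat.cast_nonneg _) (hWt.nn v)
  have hpw : ∀ Q : Finset (Finset (Fin n)), 0 ≤ pw (gf κ) Q := fun Q =>
    Finset.prod_nonneg fun A _ => hgf _
  have hF0 : ∀ Q, 0 ≤ F Q := fun Q => mul_nonneg (hpw Q) (by positivity)
  let W : Finset (Finset (Fin n)) → ℝ := fun I =>
    Real.exp (n * (((∑ C ∈ I, C.card : ℕ) : ℝ) / n - ph (((∑ C ∈ I, C.card : ℕ) : ℝ) / n))) *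
      ∏ C ∈ I, FF p n T R κ C.card
  have hW0 : ∀ I, 0 ≤ W I := fun I => mul_nonneg (Real.exp_pos _).le
    (Finset.prod_nonneg fun C _ => FF_nonneg p n T R κ _ hp1' hWt.nn)
  set E0 : ℝ := (T : ℝ) ^ 3 + 1 + Real.log n + ∑ v ∈ range (T + 2), κ v with hE0
  have hmm : (1 : ℝ) ≤ m₀ := by
    refine le_trans ?_ hm₀
    exact Real.one_le_rpow hn1 (by linarith)
  -- fibres
  have hsum : ∑ Q ∈ (Pt (Fin n)).filter (fun Q => m₀ ≤ (bigS R P Q).card ∧
      ((bigS R P Q).card : ℝ) ≤ (1 - ε₀) * P.card), F Q =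
      ∑ y ∈ S1 ×ˢ range (n + 1), ∑ Q ∈ ((Pt (Fin n)).filter (fun Q => m₀ ≤ (bigS R P Q).card ∧
        ((bigS R P Q).card : ℝ) ≤ (1 - ε₀) * P.card)).filter
          (fun Q => (bigS R P Q, NR R P Q) = y), F Q := by
    refine (Finset.sum_fiberwise_of_maps_to (fun Q hQ => ?_) _).symm
    obtain ⟨-, h1, h2⟩ := Finset.mem_filter.1 hQ
    refine Finset.mem_product.2 ⟨Finset.mem_filter.2 ⟨?_, h1, h2⟩, Finset.mem_range.2 (NR_lt R n P Q)⟩
    exact Finset.mem_powerset.2 (Finset.filter_subset _ _)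
  have hgoal : ∑ Q ∈ (Pt (Fin n)).filter (fun Q => m₀ ≤ (bigS R P Q).card ∧
      ((bigS R P Q).card : ℝ) ≤ (1 - ε₀) * P.card), F Q ≤
      (n.factorial : ℝ) * Real.exp (∑ v ∈ range (T + 2), κ v - m₀) := by
    rcases S1.eq_empty_or_nonempty with hS1e | ⟨I0, hI0⟩
    · rw [hsum, hS1e, Finset.empty_product, Finset.sum_empty]
      positivity
    -- the number of classes
    obtain ⟨-, i1, i2⟩ := hS1 I0 hI0
    have hk2 : 2 ≤ P.card := by
      have h1 : (1 : ℝ) ≤ (1 - ε₀) * P.card := by linarith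
      have h2 : (0 : ℝ) ≤ ε₀ * P.card := by positivity
      have h3 : (P.card : ℝ) ≠ 1 := by
        intro h
        rw [h] at h1
        linarith
      have h4 : (1 : ℝ) ≤ P.card := by linarith
      have h5 : 1 ≤ P.card := by exact_mod_cast h4
      have h6 : P.card ≠ 1 := by exact_mod_cast h3
      omega
    have hPT : (P.card : ℝ) * (T + 1) ≤ 2 * n := by
      obtain ⟨I', h1, h2⟩ := Finset.exists_subset_card_eq (s := P) (n := P.card / 2)
        (Nat.div_le_self _ _)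
      have h3 : (P.card : ℝ) ≤ 2 * ((P.card / 2 : ℕ) : ℝ) + 1 := by
        have : P.card ≤ 2 * (P.card / 2) + 1 := by omega
        exact_mod_cast this
      have h4 : 2 * ((P.card / 2 : ℕ) : ℝ) ≤ P.card := by
        have : 2 * (P.card / 2) ≤ P.card := by omega
        exact_mod_cast this
      have h5 : (2 : ℝ) ≤ P.card := by exact_mod_cast hk2
      refine (hM2 C₀ s n T th κ₀ κ lam mu P I' (by omega) hW hPar hGood hs0 hs hWt h1 ?_ ?_).1
      · rw [h2]
        have : ε₁ * P.card ≤ 1 / 4 * P.card := mul_le_mul_of_nonneg_right he1' (by linarith)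
        linarith
      · rw [h2]
        have : ε₀ * P.card ≤ 1 / 4 * P.card := mul_le_mul_of_nonneg_right hε₀' (by linarith)
        linarith
    have hT4 : 4 ≤ T := by
      have := hSz.t4.1
      omega
    have hkn : (P.card : ℝ) ≤ n := by
      have h1 : (4 : ℝ) ≤ T := by exact_mod_cast hT4
      have h2 : (P.card : ℝ) * 2 ≤ P.card * (T + 1) :=
        mul_le_mul_of_nonneg_left (by linarith) (Nat.cast_nonneg _)
      linarith
    have hkm : m₀ ≤ P.card := by
      have : 0 ≤ ε₀ * (P.card : ℝ) := by positivity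
      linarith
    -- every fibre
    have hfib : ∀ y ∈ S1 ×ˢ range (n + 1), ∑ Q ∈ ((Pt (Fin n)).filter (fun Q =>
        m₀ ≤ (bigS R P Q).card ∧ ((bigS R P Q).card : ℝ) ≤ (1 - ε₀) * P.card)).filter
          (fun Q => (bigS R P Q, NR R P Q) = y), F Q ≤
        (n.factorial : ℝ) * Real.exp E0 * W y.1 := by
      rintro ⟨I, N⟩ hy
      obtain ⟨hI, -⟩ := Finset.mem_product.1 hy
      obtain ⟨j1, j2, j3⟩ := hS1 I hI
      rcases (((Pt (Fin n)).filter (fun Q => m₀ ≤ (bigS R P Q).card ∧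
          ((bigS R P Q).card : ℝ) ≤ (1 - ε₀) * P.card)).filter
          (fun Q => (bigS R P Q, NR R P Q) = (I, N))).eq_empty_or_nonempty with he | ⟨Q0, hQ0⟩
      · rw [he, Finset.sum_empty]
        have := hW0 I
        positivity
      · obtain ⟨-, hQ⟩ := Finset.mem_filter.1 hQ0
        obtain ⟨hQI, hQN⟩ := Prod.mk.inj hQ
        have hNr := NR_ge R n P Q0
        rw [hQI, hQN] at hNr
        have hNbig : (n : ℝ) ^ (1 / 2 + ε) ≤ N := by
          rcases le_total (I.card : ℝ) (ε₁ * P.card) with hle | hle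
          · have h1 : ((∑ C ∈ I, C.card : ℕ) : ℝ) ≤ I.card * (T + 1) := by
              have h2 : ∑ C ∈ I, C.card ≤ ∑ _C ∈ I, (T + 1) :=
                Finset.sum_le_sum fun C hC => hGood.size C (j1 hC)
              rw [Finset.sum_const, smul_eq_mul] at h2
              exact_mod_cast h2
            have h3 : (I.card : ℝ) * (T + 1) ≤ 1 / 4 * P.card * (T + 1) := by
              refine mul_le_mul_of_nonneg_right (hle.trans ?_) (by positivity)
              exact mul_le_mul_of_nonneg_right he1' (Nat.cast_nonneg _)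
            have h4 : ε₀ * n / 2 ≤ n / 2 := by
              have : ε₀ * n ≤ 1 / 4 * n := mul_le_mul_of_nonneg_right hε₀' hnp.le
              linarith
            linarith
          · have h1 := (hM2 C₀ s n T th κ₀ κ lam mu P I (by omega) hW hPar hGood hs0 hs hWt j1
              hle j3).2.1
            linarith
        have hov := hO n T N th b κ P I (by omega) hW hWt hGood.part hGood.size j1 le_rfl ?_ hNbig
        · refine le_trans ?_ (hov.trans (le_of_eq ?_))
          · refine le_trans (Finset.sum_le_sum_of_subset_of_nonneg (t := (Pt (Fin n)).filter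
              (fun Q => bigS R P Q = I ∧ NR R P Q = N)) ?_ fun Q _ _ => hF0 Q) ?_
            · intro Q hQ
              obtain ⟨h1, h2⟩ := Finset.mem_filter.1 hQ
              obtain ⟨h3, h4⟩ := Prod.mk.inj h2
              exact Finset.mem_filter.2 ⟨(Finset.mem_filter.1 h1).1, h3, h4⟩
            · refine Finset.sum_le_sum fun Q _ => ?_
              show pw (gf κ) Q * b ^ ovl P Q ≤
                pw (gf κ) Q * b ^ ovB R P Q * b ^ (ovl P Q - ovB R P Q)
              rw [mul_assoc, ← pow_add]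
              exact mul_le_mul_of_nonneg_left (pow_le_pow_right₀ hb1 (by omega)) (hpw Q)
          · show (n.factorial : ℝ) * Real.exp _ * _ = (n.factorial : ℝ) * Real.exp E0 *
              (Real.exp _ * _)
            rw [Real.exp_add _ ((n : ℝ) * _)]
            ring
        · rw [← hbb]
          refine Real.exp_le_exp.2 ?_
          have : 0 ≤ ε / 8 * bb p := by positivity
          linarith
    -- the sum of `W`
    have hWsum : ∑ I ∈ S1, W I ≤ 2 * Real.exp (-(4 * m₀)) := by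
      set x : ℝ := (n : ℝ) ^ (-th + ε / 4) with hx
      set z : ℝ := (n : ℝ) ^ (3 * ε / 4) with hz
      have hx0 : 0 < x := Real.rpow_pos_of_pos hnp _
      have hz1 : 1 ≤ z := Real.one_le_rpow hn1 (by positivity)
      have hWI : ∀ I ∈ S1, W I ≤ x ^ I.card + Real.exp (-(c * P.card * Real.log n)) := by
        intro I hI
        obtain ⟨j1, j2, j3⟩ := hS1 I hI
        rcases le_total (I.card : ℝ) (ε₁ * P.card) with hle | hle
        · have h1 := hM1 n T th κ P I (by omega) hW hWt hGood.part hGood.size hPT j1 hle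
          have h2 : (n : ℝ) ^ ((-th + ε / 4) * I.card) = x ^ I.card := by
            rw [hx, ← Real.rpow_natCast, ← Real.rpow_mul hnp.le]
          rw [h2] at h1
          have h3 : 0 < Real.exp (-(c * P.card * Real.log n)) := Real.exp_pos _
          have h4 : W I ≤ x ^ I.card := h1
          linarith
        · have h1 := (hM2 C₀ s n T th κ₀ κ lam mu P I (by omega) hW hPar hGood hs0 hs hWt j1
              hle j3).2.2
          have h3 : 0 < x ^ I.card := by positivity
          have h4 : W I ≤ Real.exp (-(c * P.card * Real.log n)) := h1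
          linarith
      refine (Finset.sum_le_sum hWI).trans ?_
      rw [Finset.sum_add_distrib]
      have hA : ∑ I ∈ S1, x ^ I.card ≤ Real.exp (-(4 * m₀)) := by
        refine (big_sets P S1 x z m₀ (fun I hI => ⟨(hS1 I hI).1, (hS1 I hI).2.1⟩) hx0.le hz1
          ?_).trans ?_
        · rw [hx, hz, ← Real.rpow_add hnp]
          calc (P.card : ℝ) * (n : ℝ) ^ (-th + ε / 4 + 3 * ε / 4)
              ≤ (n : ℝ) ^ (1 : ℝ) * (n : ℝ) ^ (-th + ε / 4 + 3 * ε / 4) := by
                rw [Real.rpow_one]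
                exact mul_le_mul_of_nonneg_right hkn (Real.rpow_nonneg hnp.le _)
            _ = (n : ℝ) ^ (1 - th + ε) := by
                rw [← Real.rpow_add hnp]
                congr 1
                ring
            _ ≤ m₀ := hm₀
        · rw [hz, ← Real.rpow_mul hnp.le, Real.rpow_def_of_pos hnp, ← Real.exp_add]
          refine Real.exp_le_exp.2 ?_
          nlinarith
      have hB : ∑ _I ∈ S1, Real.exp (-(c * P.card * Real.log n)) ≤ Real.exp (-(4 * m₀)) := by
        rw [Finset.sum_const, nsmul_eq_mul]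
        have h1 : (S1.card : ℝ) ≤ 2 ^ P.card := by
          have : S1.card ≤ P.powerset.card := Finset.card_le_card (Finset.filter_subset _ _)
          rw [Finset.card_powerset] at this
          exact_mod_cast this
        have h2 : (2 : ℝ) ^ P.card ≤ Real.exp P.card := by
          calc (2 : ℝ) ^ P.card ≤ Real.exp 1 ^ P.card :=
                pow_le_pow_left₀ (by norm_num) (by have := Real.add_one_le_exp (1 : ℝ); linarith) _
            _ = Real.exp P.card := by rw [← Real.exp_nat_mul, mul_one]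
        calc (S1.card : ℝ) * Real.exp (-(c * P.card * Real.log n))
            ≤ Real.exp P.card * Real.exp (-(c * P.card * Real.log n)) :=
              mul_le_mul_of_nonneg_right (h1.trans h2) (Real.exp_pos _).le
          _ = Real.exp (P.card + -(c * P.card * Real.log n)) := (Real.exp_add _ _).symm
          _ ≤ Real.exp (-(4 * m₀)) := by
              refine Real.exp_le_exp.2 ?_
              have h3 : (5 : ℝ) * P.card ≤ c * Real.log n * P.card :=
                mul_le_mul_of_nonneg_right k4 (Nat.cast_nonneg _)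
              nlinarith
      linarith
    -- the end
    have hT3 : (T : ℝ) ^ 3 ≤ m₀ := by
      have h1 : (1 : ℝ) ≤ T := by
        have : 1 ≤ T := by omega
        exact_mod_cast this
      calc (T : ℝ) ^ 3 ≤ (T : ℝ) ^ 8 := pow_le_pow_right₀ h1 (by norm_num)
        _ ≤ (n : ℝ) ^ ε := hSz.t3
        _ ≤ (n : ℝ) ^ (1 - th + ε) := Real.rpow_le_rpow_of_exponent_le hn1 (by linarith)
        _ ≤ m₀ := hm₀
    have hlm : 3 + 2 * Real.log n ≤ 2 * m₀ := by
      have h1 : (n : ℝ) ^ ε ≤ m₀ :=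
        (Real.rpow_le_rpow_of_exponent_le hn1 (by linarith)).trans hm₀
      linarith
    have hcount : ((n + 1 : ℕ) : ℝ) * 2 ≤ Real.exp (2 + Real.log n) := by
      rw [Real.exp_add, Real.exp_log hnp]
      have h1 : (4 : ℝ) ≤ Real.exp 2 := by
        have h2 : Real.exp 2 = Real.exp 1 * Real.exp 1 := by
          rw [← Real.exp_add]
          norm_num
        have h3 := Real.add_one_le_exp (1 : ℝ)
        rw [h2]
        nlinarith
      push_cast
      nlinarith
    rw [hsum]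
    calc ∑ y ∈ S1 ×ˢ range (n + 1), ∑ Q ∈ ((Pt (Fin n)).filter (fun Q =>
        m₀ ≤ (bigS R P Q).card ∧ ((bigS R P Q).card : ℝ) ≤ (1 - ε₀) * P.card)).filter
          (fun Q => (bigS R P Q, NR R P Q) = y), F Q
        ≤ ∑ y ∈ S1 ×ˢ range (n + 1), (n.factorial : ℝ) * Real.exp E0 * W y.1 :=
          Finset.sum_le_sum hfib
      _ = (n.factorial : ℝ) * Real.exp E0 * (((n + 1 : ℕ) : ℝ) * ∑ I ∈ S1, W I) := by
          rw [← Finset.mul_sum, Finset.sum_product]
          simp only [Finset.sum_const, Finset.card_range, nsmul_eq_mul, ← Finset.mul_sum]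
      _ ≤ (n.factorial : ℝ) * Real.exp E0 * (((n + 1 : ℕ) : ℝ) * (2 * Real.exp (-(4 * m₀)))) := by
          refine mul_le_mul_of_nonneg_left (mul_le_mul_of_nonneg_left hWsum ?_) (by positivity)
          exact Nat.cast_nonneg _
      _ ≤ (n.factorial : ℝ) * (Real.exp E0 * (Real.exp (2 + Real.log n) *
            Real.exp (-(4 * m₀)))) := by
          rw [mul_assoc, ← mul_assoc ((n + 1 : ℕ) : ℝ)]
          refine mul_le_mul_of_nonneg_left (mul_le_mul_of_nonneg_left
            (mul_le_mul_of_nonneg_right hcount (Real.exp_pos _).le) (Real.exp_pos _).le)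
            (Nat.cast_nonneg _)
      _ ≤ (n.factorial : ℝ) * Real.exp (∑ v ∈ range (T + 2), κ v - m₀) := by
          rw [← Real.exp_add, ← Real.exp_add]
          refine mul_le_mul_of_nonneg_left (Real.exp_le_exp.2 ?_) (Nat.cast_nonneg _)
          rw [hE0]
          linarith
  refine le_trans (le_of_eq ?_) hgoal
  refine Finset.sum_congr ?_ fun Q _ => rfl
  ext Q
  simp only [Finset.mem_filter]

end Pool.Agent.Helper36.UX
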